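import Mathlib

namespace Pool.Agent.Results.MP_58c1a9_gt.E8Form
open ExteriorAlgebra Finset

/-- the lattice `H^1(Z^8)` -/
def V : Type := Fin 8 → ℤ

instance : AddCommGroup V := Pi.addCommGroup

/-- the standard basis `x_1, ..., x_8` -/
def e (i : Fin 8) : V := (Pi.single i 1 : Fin 8 → ℤ)

/-- the top class `x_1 ∧ ... ∧ x_8` dual to the fundamental class -/
noncomputable def top : ExteriorAlgebra ℤ V := ιMulti ℤ 8 e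

/-- Gram matrix of `E_8 ⊕ 10 H` -/
def G : Matrix (Fin 8 ⊕ (Fin 10 × Fin 2)) (Fin 8 ⊕ (Fin 10 × Fin 2)) ℤ :=
  Matrix.fromBlocks CartanMatrix.E₈ 0 0
    (Matrix.of fun p q => if p.1 = q.1 ∧ p.2 ≠ q.2 then 1 else 0)

def sg (a : Fin 8 → Fin 8) : ℤ :=
  ∏ i, ∏ j ∈ Ioi i, (if a i < a j then 1 else if a i = a j then 0 else -1)

def sgL : List (Fin 8) → ℤ
  | [] => 1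
  | a :: t => if a ∈ t then 0 else
      (t.map fun b => if a < b then (1 : ℤ) else if a = b then 0 else -1).prod * sgL t

lemma sgL_eq (n : ℕ) (a : Fin n → Fin 8) : sgL (List.ofFn a) =
    ∏ i, ∏ j ∈ Ioi i, (if a i < a j then (1 : ℤ) else if a i = a j then 0 else -1) := by
  induction n with
  | zero => simp [sgL]
  | succ n ih =>
    rw [List.ofFn_succ, sgL, ih, Fin.prod_univ_succ, Fin.prod_Ioi_zero, List.map_ofFn,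
      List.prod_ofFn]
    simp only [Fin.prod_Ioi_succ]
    split_ifs with h
    · obtain ⟨j, hj⟩ := List.mem_ofFn.1 h
      rw [prod_eq_zero (mem_univ j) (by simp [hj]), zero_mul]
    · rfl

lemma ι_eq (a : Fin 8 → Fin 8) : ιMulti ℤ 8 (fun i => e (a i)) = sg a • top := by
  by_cases h : Function.Injective a
  · let σ : Equiv.Perm (Fin 8) := Equiv.ofBijective a (Finite.injective_iff_bijective.1 h)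
    have h1 := (ιMulti ℤ 8 (M := V)).map_perm e σ
    have h2 : ((Equiv.Perm.sign σ : ℤˣ) : ℤ) = sg a := by
      rw [Equiv.Perm.sign_eq_prod_prod_Ioi, sg]
      simp only [Units.coe_prod]
      refine prod_congr rfl fun i _ => prod_congr rfl fun j hi => ?_
      have : a i ≠ a j := fun h' => (mem_Ioi.1 hi).ne (h h')
      change ((if a i < a j then 1 else -1 : ℤˣ) : ℤ) = _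
      split_ifs <;> simp
    rw [← h2]; exact h1
  · rw [AlternatingMap.map_eq_zero_of_not_injective _ (fun i => e (a i))
      (fun h' => h (Function.Injective.of_comp (f := e) h'))]
    simp only [Function.Injective, not_forall] at h
    obtain ⟨i, j, h1, h2⟩ := h
    have : sg a = 0 := by
      rcases lt_or_gt_of_ne h2 with h | h
      · exact prod_eq_zero (mem_univ i) (prod_eq_zero (mem_Ioi.2 h) (by simp [h1]))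
      · exact prod_eq_zero (mem_univ j) (prod_eq_zero (mem_Ioi.2 h) (by simp [h1]))
    rw [this, zero_smul]

def pa (k : ℕ) : Fin 8 := ([0, 0, 0, 0, 0, 0, 0, 1, 1, 1, 1, 1, 1, 2, 2, 2, 2, 2, 3, 3, 3, 3, 4, 4, 4, 5, 5, 6] : List (Fin 8)).getD k 0
def pb (k : ℕ) : Fin 8 := ([1, 2, 3, 4, 5, 6, 7, 2, 3, 4, 5, 6, 7, 3, 4, 5, 6, 7, 4, 5, 6, 7, 5, 6, 7, 6, 7, 7] : List (Fin 8)).getD k 0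
def tc (t : ℕ) : ℤ := ([-1, -1, 1, 1, 1, -1, -1, -1, 1, -1, 1, -1, -1, 1, 1, 1, -1, 1, -1] : List ℤ).getD t 0
def tv (t i : ℕ) : Fin 8 := (([[0, 1, 2, 4], [0, 2, 3, 5], [1, 3, 4, 5], [0, 1, 2, 6], [0, 2, 3, 6], [1, 2, 3, 6], [0, 3, 4, 6], [2, 3, 4, 6], [1, 3, 5, 6], [1, 4, 5, 6], [0, 1, 4, 7], [1, 3, 4, 7], [0, 1, 5, 7], [1, 4, 5, 7], [2, 4, 5, 7], [0, 2, 6, 7], [2, 3, 6, 7], [3, 4, 6, 7], [4, 5, 6, 7]] : List (List (Fin 8))).getD t []).getD i 0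
def Bm (k l : ℕ) : ℤ := (([
  [0, 0, 0, 0, 0, 0, 0, 0, 0, 0, 0, 0, 0, -1, 0, 1, 0, 0, 0, 0, 1, 0, -1, 0, 0, 0, 1, 0],
  [0, 0, 0, 0, 0, 0, 0, 0, 1, 0, -1, 0, 0, 0, 0, 0, 0, 0, 0, 0, -1, -1, 0, 0, -1, 1, 0, -1],
  [0, 0, 0, 0, 0, 0, 0, -1, 0, 0, 0, -1, 0, 0, 0, 0, 1, 1, 0, 0, 0, 0, 0, 0, 0, 0, 0, 0],
  [0, 0, 0, 0, 0, 0, 0, 0, 0, 0, 1, 0, 0, 0, 0, 0, 0, 1, 0, 0, 0, 0, 0, 0, 0, 0, -1, 0],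
  [0, 0, 0, 0, 0, 0, 0, 1, 0, -1, 0, 0, -1, 0, 0, 0, -1, 0, 0, 0, 0, 0, 0, 0, 1, 0, 0, 0],
  [0, 0, 0, 0, 0, 0, 0, 0, 1, 0, 0, 0, 0, -1, 0, 1, 0, 1, 0, 0, 0, 0, 0, 0, 0, 0, 0, 0],
  [0, 0, 0, 0, 0, 0, 0, 0, 0, 0, 1, 0, 0, -1, -1, 0, -1, 0, 0, 0, 0, 0, -1, 0, 0, 0, 0, 0],
  [0, 0, -1, 0, 1, 0, 0, 0, 0, 0, 0, 0, 0, 0, 0, 0, 0, 0, 0, 0, 0, 0, 0, 0, 0, 0, 1, 0],
  [0, 1, 0, 0, 0, 1, 0, 0, 0, 0, 0, 0, 0, 0, 0, 0, 0, 0, 0, 0, 0, 0, -1, 0, 0, 0, 0, 0],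
  [0, 0, 0, 0, -1, 0, 0, 0, 0, 0, 0, 0, 0, 0, 0, 0, 0, 0, 0, 1, 0, 0, 0, 0, 0, 0, -1, -1],
  [0, -1, 0, 1, 0, 0, 1, 0, 0, 0, 0, 0, 0, 0, 0, 0, 0, -1, -1, 0, 0, 0, 0, 0, 1, 0, 0, 0],
  [0, 0, -1, 0, 0, 0, 0, 0, 0, 0, 0, 0, 0, 0, 0, 0, 0, 0, 0, 0, 0, 0, 0, 0, 1, 0, 0, 0],
  [0, 0, 0, 0, -1, 0, 0, 0, 0, 0, 0, 0, 0, 0, 0, 1, 0, 0, 0, 0, 0, 0, -1, -1, 0, 0, 0, 0],
  [-1, 0, 0, 0, 0, -1, -1, 0, 0, 0, 0, 0, 0, 0, 0, 0, 0, 0, 0, 0, 0, 0, 0, 1, 0, 1, 0, 0],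
  [0, 0, 0, 0, 0, 0, -1, 0, 0, 0, 0, 0, 0, 0, 0, 0, 0, 0, 0, 0, -1, 0, 0, 0, 0, 0, 0, 0],
  [1, 0, 0, 0, 0, 1, 0, 0, 0, 0, 0, 0, 1, 0, 0, 0, 0, 0, 0, 0, -1, 0, 0, 0, 0, 0, 0, 0],
  [0, 0, 1, 0, -1, 0, -1, 0, 0, 0, 0, 0, 0, 0, 0, 0, 0, 0, 1, 1, 0, 0, 0, 0, 0, 0, 0, 0],
  [0, 0, 1, 1, 0, 1, 0, 0, 0, 0, -1, 0, 0, 0, 0, 0, 0, 0, 0, 0, 0, 0, 0, 0, 0, 0, 0, 0],
  [0, 0, 0, 0, 0, 0, 0, 0, 0, 0, -1, 0, 0, 0, 0, 0, 1, 0, 0, 0, 0, 0, 0, 0, 0, 0, -1, 0],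
  [0, 0, 0, 0, 0, 0, 0, 0, 0, 1, 0, 0, 0, 0, 0, 0, 1, 0, 0, 0, 0, 0, 0, 0, 1, 0, 0, 1],
  [1, -1, 0, 0, 0, 0, 0, 0, 0, 0, 0, 0, 0, 0, -1, -1, 0, 0, 0, 0, 0, 0, 0, 0, 0, 0, -1, 0],
  [0, -1, 0, 0, 0, 0, 0, 0, 0, 0, 0, 0, 0, 0, 0, 0, 0, 0, 0, 0, 0, 0, -1, 0, 0, 1, 0, 0],
  [-1, 0, 0, 0, 0, 0, -1, 0, -1, 0, 0, 0, -1, 0, 0, 0, 0, 0, 0, 0, 0, -1, 0, 0, 0, 0, 0, 0],
  [0, 0, 0, 0, 0, 0, 0, 0, 0, 0, 0, 0, -1, 1, 0, 0, 0, 0, 0, 0, 0, 0, 0, 0, 0, 0, 0, 0],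
  [0, -1, 0, 0, 1, 0, 0, 0, 0, 0, 1, 1, 0, 0, 0, 0, 0, 0, 0, 1, 0, 0, 0, 0, 0, 0, 0, 0],
  [0, 1, 0, 0, 0, 0, 0, 0, 0, 0, 0, 0, 0, 1, 0, 0, 0, 0, 0, 0, 0, 1, 0, 0, 0, 0, 0, 0],
  [1, 0, 0, -1, 0, 0, 0, 1, 0, -1, 0, 0, 0, 0, 0, 0, 0, 0, -1, 0, -1, 0, 0, 0, 0, 0, 0, 0],
  [0, -1, 0, 0, 0, 0, 0, 0, 0, -1, 0, 0, 0, 0, 0, 0, 0, 0, 0, 1, 0, 0, 0, 0, 0, 0, 0, 0]] : List (List ℤ)).getD k []).getD l 0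
def Vm (k l : ℕ) : ℤ := (([
  [1, 1, 0, 0, 1, 0, 0, -2, 0, 0, 0, 0, -1, -1, 1, 0, -1, -1, 0, 1, 0, 0, 1, -2, 0, 2, -1, 1],
  [0, 0, 0, 0, 1, 0, -1, 0, 1, 0, 0, -2, 1, 1, 0, 1, -1, -1, 0, 0, 1, -1, 0, 0, 0, 0, -1, 1],
  [1, 0, 0, 0, 0, 0, -1, 0, 0, 0, 0, 0, 0, 0, 0, 1, 0, 0, -1, 0, 1, 0, 0, 1, 0, 0, 0, 0],
  [0, 0, 0, 0, 0, -1, 1, 0, -1, 1, -1, 0, 0, 0, 1, -1, -1, 1, 0, 1, -1, 0, -1, 0, 0, -1, 0, 0],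
  [-1, 0, 0, 0, -1, 1, 0, 1, 1, -1, 1, 1, 0, 0, -2, 0, 2, 0, 0, -1, 0, 0, 1, 0, 0, 1, 1, -1],
  [-1, -1, 1, -1, 1, 0, 0, 0, 0, 0, 0, 0, 1, 1, 0, 0, 0, 0, 1, -1, 0, 0, -1, 0, 1, -2, 0, -1],
  [0, 0, -1, 0, -1, 1, 0, 0, 0, 0, 0, 0, -1, -1, 0, 0, 0, 0, 0, 0, 0, 1, 1, 0, -1, 1, 0, 1],
  [0, 0, 0, 1, 0, 0, 0, 1, 0, 0, 1, -1, 0, 0, 0, 0, 1, -1, 0, 0, 0, 0, 0, 0, 0, 0, 0, -1],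
  [0, 0, 0, 0, 0, 0, 0, 0, 0, 0, 0, 0, 0, 0, 0, 0, 0, 0, 0, 0, 0, 0, 0, 0, 0, 1, 0, 0],
  [0, 0, 0, 0, 0, 0, 0, 0, 0, 0, 0, 0, 0, 0, 0, 0, 0, 0, 0, 0, 0, 1, 0, 0, 0, 0, 0, 0],
  [0, 0, 0, 0, 0, 0, 0, 0, 0, 0, 0, 1, 0, 0, 0, 0, 0, 0, 0, 0, 0, 0, 0, 0, 0, 0, 0, 0],
  [0, 0, -1, 0, 0, 0, 0, 0, 0, 0, 0, 0, 0, 0, 0, 0, 0, 0, 0, 0, 0, 0, 0, 0, 0, 0, 0, 0],
  [0, 0, 0, 0, 0, 0, 0, 0, 0, 0, 0, 0, 0, 0, 0, 0, 0, 0, 0, 0, 0, 0, 0, 1, 0, 0, 0, 0],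
  [0, 0, 0, 0, 0, 0, 0, 0, 0, 0, 0, 0, -1, 0, 0, 0, 0, 0, 0, 0, 0, 0, 0, 0, 0, 0, 0, 0],
  [0, 0, 0, 0, 0, 0, 0, 0, 0, 0, 0, 0, 0, 0, 1, 0, 0, 0, 0, 0, 0, 0, 0, 0, 0, 0, 0, 0],
  [0, 0, 0, 0, 0, 0, -1, 0, 0, 0, 0, 0, 0, 0, 0, 0, 0, 0, 0, 0, 0, 0, 0, 0, 0, 0, 0, 0],
  [0, 0, 0, 0, 0, 0, 0, 0, 0, 0, 0, 0, 0, 0, 0, 0, 0, 0, 0, 0, 0, 0, 0, 0, 0, 0, 0, 1],
  [0, 0, 0, 0, 0, 0, 0, 0, 0, 0, 0, 0, 0, 0, 0, 0, 0, 0, 0, 1, 0, 0, 0, 0, 0, 0, 0, 0],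
  [0, 0, 0, 1, 0, 0, 0, 0, 0, 0, 0, 0, 0, 0, 0, 0, 0, 0, 0, 0, 0, 0, 0, 0, 0, 0, 0, 0],
  [0, 0, 0, 0, 0, 0, 0, 0, 0, 0, 0, 1, 0, 0, 0, 0, 0, 1, 0, 0, 0, 0, 0, 0, 0, 0, 0, 0],
  [0, 0, 0, 0, 0, 0, 0, 0, 0, 0, 0, 0, 0, 0, -1, 0, 0, 0, 0, 0, 0, 0, 1, -1, 0, 1, 0, 0],
  [0, 0, 0, 0, 0, 0, 0, 0, -1, 0, 0, 0, 0, 0, 0, 0, 0, 0, 0, 0, 0, 0, 0, 0, 0, 0, 0, 0],
  [0, 0, 0, 0, 0, 0, 0, 1, 0, 0, 0, -1, 0, 0, 0, 0, 0, 0, 0, 0, 0, 0, 0, 0, 0, 0, 0, 0],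
  [0, 0, 0, 0, 1, 0, 0, 0, 0, 0, 0, 0, 0, 0, 0, 0, 0, 0, 0, 0, 0, 0, 0, -1, 0, 0, 0, 0],
  [0, 0, 0, 0, 0, 0, 0, 1, 0, 0, 0, 0, 0, 0, -1, 0, 1, 0, 0, 0, 0, 0, 0, 0, 0, 0, 0, -1],
  [0, 0, 0, 0, 0, 0, 0, 0, 0, 0, 0, 0, 0, 0, 0, 0, 0, 0, 1, 0, 0, 0, 0, 0, 0, 0, 0, 0],
  [0, 0, 0, 0, 0, 0, 0, 0, 0, 0, 0, 0, 0, 0, 0, 1, 0, 0, 0, 0, 0, 0, 0, 1, 0, 0, 0, 0],
  [0, 0, 0, 0, 0, 0, 1, 0, -1, 0, 0, 0, 0, 0, 0, 0, 0, 0, 1, 0, -1, 0, 0, 0, 0, 0, 0, 0]] : List (List ℤ)).getD k []).getD l 0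
def Um (k l : ℕ) : ℤ := (([
  [-1, 1, 0, 0, 0, 0, 0, 0, 0, 0, 0, 0, 0, -1, 0, 0, 0, 0, 0, 0, 0, 0, 0, 0, 1, 0, -1, 0],
  [0, 0, 0, 0, 0, 0, 0, 0, 0, -1, 0, 0, 0, 1, 0, 0, 0, 0, 0, 0, 0, 0, 0, 0, -1, 0, -1, 0],
  [2, -1, 0, 0, 0, 1, 0, 0, 0, 0, 0, 0, 0, 1, 0, 0, 0, 0, 0, 0, 0, 0, 0, 0, 0, 0, 1, 0],
  [-1, 0, 0, 0, 0, -1, 0, 0, 0, 1, 0, 0, 0, -1, 0, 0, 0, 0, 0, 0, 0, 0, 0, 0, 0, 0, 0, 0],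
  [0, 2, 0, 0, 0, 1, 0, 0, 0, 0, 0, 0, 0, 1, 0, 0, 0, 0, 0, 0, 0, 0, 0, 0, 0, 0, 1, 0],
  [0, -2, 0, 0, 0, -1, 0, 0, 0, -1, 0, 0, 0, -1, 0, 0, 0, 0, 0, 0, 0, 0, 0, 0, 1, 0, -1, 0],
  [0, 0, 0, 0, 0, 1, 0, 0, 0, 0, -1, 0, 0, 0, 0, 0, 0, 0, 0, 0, 0, 0, 0, 0, -1, 0, 0, 0],
  [0, 0, 0, 0, 0, -1, 0, 0, 0, 1, 2, 0, 0, 0, 0, 0, 0, 0, 0, 0, 0, 0, 0, 0, 0, 0, 0, 0],
  [0, 1, 0, 0, 0, 0, 0, 0, 0, 0, 0, 0, 0, 1, 0, 0, 0, 0, 0, 0, 0, 1, 0, 0, 0, 0, 0, 0],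
  [0, -1, 0, 0, 0, 0, 0, 0, 0, 0, 0, 0, 0, 0, 0, 0, 0, 0, 0, 0, 0, 0, -1, 0, 0, 1, 0, 0],
  [0, 0, -1, 0, 0, 0, 0, 0, 0, 0, 0, 0, 0, 0, 0, 0, 0, 0, 0, 0, 0, 0, 0, 0, 1, 0, 0, 0],
  [0, 0, 0, 0, 0, 0, 0, 1, 0, 0, 0, 1, 0, 0, 0, 0, -1, -1, 0, 0, 0, 0, 0, 0, 0, 0, 0, 0],
  [0, 0, 0, 0, 0, 0, 0, 0, 0, 0, 0, 0, -1, 1, 0, 0, 0, 0, 0, 0, 0, 0, 0, 0, 0, 0, 0, 0],
  [0, 0, 0, 0, 1, 0, 0, 0, 0, 0, 0, 0, 0, 0, 0, -1, 0, 0, 0, 0, 0, 0, 1, 1, 0, 0, 0, 0],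
  [0, 0, 0, 0, 0, 0, -1, 0, 0, 0, 0, 0, 0, 0, 0, 0, 0, 0, 0, 0, -1, 0, 0, 0, 0, 0, 0, 0],
  [0, 0, 0, 0, 0, 0, 0, 0, 0, 0, -1, 0, 0, 1, 1, 0, 1, 0, 0, 0, 0, 0, 1, 0, 0, 0, 0, 0],
  [0, -1, 0, 0, 0, 0, 0, 0, 0, -1, 0, 0, 0, 0, 0, 0, 0, 0, 0, 1, 0, 0, 0, 0, 0, 0, 0, 0],
  [0, 0, 0, 0, 0, 0, 0, 0, 0, 1, 0, 0, 0, 0, 0, 0, 1, 0, 0, 0, 0, 0, 0, 0, 1, 0, 0, 1],
  [0, 0, 0, 0, 0, 0, 0, 0, 0, 0, 1, 0, 0, 0, 0, 0, 0, 1, 0, 0, 0, 0, 0, 0, 0, 0, -1, 0],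
  [0, 0, 0, 1, 0, 1, 0, 0, 0, 0, -1, 0, 0, 0, 0, 0, 0, 0, 0, 0, 0, 0, 0, 0, 1, 0, 0, 0],
  [-1, 1, 0, 0, 0, 0, 0, 0, -1, 0, 0, 0, 0, 0, 0, 0, 0, 0, 0, 0, 1, 0, 0, 0, 0, 0, 0, 0],
  [0, -1, 0, 0, 0, -1, 0, 0, 0, 0, 0, 0, 0, 0, 0, 0, 0, 0, 0, 0, 0, 0, 1, 0, 0, 0, 0, 0],
  [0, 0, 0, 0, 1, 0, 0, 0, 0, 0, 0, 0, 0, 0, 0, 0, 0, 0, 0, 0, 0, 0, 0, 0, -1, 0, 1, 0],
  [0, 0, 0, 0, 0, 0, 0, 1, 0, -1, 0, 0, 0, -1, 0, 0, -1, 0, 0, 0, 0, 0, 0, 0, 1, 0, 0, 0],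
  [0, 1, 0, 0, 0, 0, 0, 0, 0, 1, 0, 0, 0, 0, 0, 0, 0, 0, 1, 0, 1, 0, 0, 0, 0, 0, 1, 0],
  [0, 0, 0, 0, 0, 0, 0, 0, 0, 0, -1, 0, 0, 0, 0, 0, 1, 0, 0, 0, 0, 0, 0, 0, 0, 0, -1, 0],
  [1, 0, 0, 0, 0, 1, 0, 0, 0, 0, 0, 0, 0, 1, 0, 0, 0, 0, 0, 0, -1, 0, 0, 0, 0, 0, 0, 0],
  [-1, 0, 0, 0, 0, -1, 0, 0, 0, 0, 0, 0, 0, -1, 0, 1, 0, 0, 0, 0, 0, 0, 0, 0, 0, 0, 0, 0]] : List (List ℤ)).getD k []).getD l 0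
def Wm (k l : ℕ) : ℤ := (([
  [0, 0, 1, 0, 0, 0, 0, 0, 0, 0, 0, 0, 0, 0, 0, 0, 0, 0, 0, 0, 0, -1, 0, 0, 0, 0, -1, 1],
  [1, 1, 1, 2, 2, 0, 0, 0, -1, 1, 0, 0, 0, 0, 0, 0, 0, -1, 0, 0, -1, 1, 0, 0, 0, 1, 0, 0],
  [0, 0, 0, 0, 0, 0, 0, 0, 0, 0, 0, -1, 0, 0, 0, 0, 0, 0, 0, 0, 0, 0, 0, 0, 0, 0, 0, 0],
  [0, 0, 0, 0, 0, 0, 0, 0, 0, 0, 0, 0, 0, 0, 0, 0, 0, 0, 1, 0, 0, 0, 0, 0, 0, 0, 0, 0],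
  [0, 0, 0, 0, 0, 0, 0, 0, 0, 0, 0, 0, 1, 0, 0, 0, 0, 0, 0, 0, 0, 0, 0, 1, 0, 0, 0, 0],
  [1, 1, 2, 2, 2, 1, 1, 0, 0, 0, 0, 0, 0, 0, 0, 0, 0, 0, 1, 0, -1, 0, 0, 0, 0, 0, -1, 1],
  [0, 0, 0, 0, 0, 0, 0, 0, 0, 0, 0, 0, 0, 0, 0, -1, 0, 0, 0, 0, 0, 0, 0, 0, 0, 0, 0, 0],
  [0, 0, 0, 0, 0, 0, 0, 0, 0, 0, 1, 0, 0, 0, 0, 0, 0, 0, 0, 0, 0, 0, 1, 0, 0, 0, 0, 0],
  [0, 0, 0, 0, 0, 0, 0, 0, 0, 0, 0, 0, 0, 0, 0, 0, 0, 0, 0, 0, 0, -1, 0, 0, 0, 0, 0, 0],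
  [1, 1, 2, 3, 2, 1, 1, 1, 0, 0, 0, 0, 0, 0, 0, 0, 1, -1, 0, 0, 0, 0, -1, 0, 0, 1, 0, 0],
  [0, 0, 0, 0, 0, 0, 0, 1, 0, 0, 0, 0, 0, 0, -1, 0, 0, 0, -1, 1, 0, 0, 0, 0, -1, 0, 0, 0],
  [0, 0, 0, 0, 0, 0, 0, 0, 0, 0, 1, 0, 0, 0, 0, 0, 0, 0, 0, 0, 0, 0, 0, 0, 0, 0, 0, 0],
  [0, 0, 0, 0, 0, 0, 0, 0, 0, 0, 0, 0, 0, -1, 0, 0, 0, 0, 0, 0, 0, 0, 0, 0, 0, 0, 0, 0],
  [0, 1, 1, 1, 1, 0, 0, 0, 0, 1, 0, 0, 0, 1, 1, 0, 0, 0, 0, 0, 0, 0, -1, 0, 0, 0, -1, 1],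
  [0, 0, 0, 0, 0, 0, 0, 0, 0, 0, 0, 0, 0, 0, 1, 0, 0, 0, 0, 0, 0, 0, 0, 0, 0, 0, 0, 0],
  [0, 0, 0, 0, 0, 0, 0, 0, 0, 0, 0, 0, -1, 0, 0, 0, 0, 0, 0, 0, 0, 0, 0, 0, 0, 0, 1, 0],
  [0, 0, 0, 0, 0, 0, 0, 0, 0, 0, -1, 0, 0, 0, 1, 0, 1, 0, 0, 0, 0, 0, -1, 0, 1, 0, 0, 0],
  [0, 0, 0, 0, 0, 0, 0, 0, 0, 0, -1, 0, 0, 0, 0, 0, 0, 0, 0, 1, 0, 0, 0, 0, 0, 0, 0, 0],
  [0, 0, 0, 0, 0, 0, 0, 0, 0, 0, 0, 0, 0, 0, 0, 0, 0, 0, 0, 0, 0, 0, 0, 0, 0, 1, 0, 0],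
  [0, 0, 0, 0, 0, 0, 0, 0, 0, 0, 0, 0, 0, 0, 0, 0, 0, 1, 0, 0, 0, 0, 0, 0, 0, 0, 0, 0],
  [0, 0, 0, 0, 0, 0, 0, 0, 0, 0, 0, 0, 0, 0, 0, -1, 0, 0, 0, 0, 0, 1, 0, 0, 0, 1, 0, -1],
  [0, 0, 0, 0, 0, 0, 0, 0, 0, 1, 0, 0, 0, 0, 0, 0, 0, 0, 0, 0, 0, 0, 0, 0, 0, 0, 0, 0],
  [0, 0, 0, 0, 0, 0, 0, 0, -1, 0, 0, 0, 1, 0, 1, 0, 0, 0, 0, 0, 1, 0, 0, 0, 0, 0, 0, 0],
  [0, 0, 0, 0, 0, 0, 0, 0, 0, 0, 0, 0, 1, 0, 0, 0, 0, 0, 0, 0, 0, 0, 0, 0, 0, 0, 0, 0],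
  [1, 0, 1, 1, 1, 1, 0, 0, 0, 0, 0, 1, 0, 0, 0, 0, 1, 0, 1, 0, 0, 0, 1, -1, 0, 0, 0, 0],
  [0, 0, 0, 0, 0, 0, 0, 0, 1, 0, 0, 0, 0, 0, 0, 0, 0, 0, 0, 0, 0, 0, 0, 0, 0, 0, 0, 0],
  [0, 0, 1, 1, 1, 0, 0, 0, 0, 0, 0, 0, 0, 0, 0, 0, 0, 0, 0, -1, 0, 0, 0, 1, -1, 1, 0, 0],
  [0, 0, 0, 0, 0, 0, 0, 0, 0, 0, 0, 0, 0, 0, 0, 0, 1, 0, 0, 0, 0, 0, 0, 0, 0, 0, 0, 0]] : List (List ℤ)).getD k []).getD l 0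

abbrev I := Fin 8 ⊕ (Fin 10 × Fin 2)
def idx : I → ℕ
  | .inl i => i
  | .inr p => 8 + 2 * p.1 + p.2

lemma hB : ∀ k < 28, ∀ l < 28, ∑ t ∈ range 19, tc t *
    sgL [pa k, pb k, pa l, pb l, tv t 0, tv t 1, tv t 2, tv t 3] = Bm k l := by decide +kernel
lemma hU : ∀ p : I, ∀ l < 28, ∑ k ∈ range 28, Vm (idx p) k * Bm k l = Um (idx p) l := by
  decide +kernel
lemma hG' : ∀ p : I × I, ∑ l ∈ range 28, Um (idx p.1) l * Vm (idx p.2) l = G p.1 p.2 := by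
  decide +kernel
lemma hG (p q : I) : ∑ k ∈ range 28, ∑ l ∈ range 28, Vm (idx p) k * Vm (idx q) l * Bm k l
    = G p q := by
  rw [← hG' (p, q), sum_comm]
  refine sum_congr rfl fun l hl => ?_
  rw [← hU p l (mem_range.1 hl), sum_mul]
  exact sum_congr rfl fun k _ => by ring
lemma hW : ∀ k < 28, ∀ l < 28, ∑ p : I, Wm k (idx p) * Vm (idx p) l = if k = l then 1 else 0 := by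
  decide +kernel
lemma hP : ∀ i j : Fin 8, i = j ∨ ∃ k < 28, (i = pa k ∧ j = pb k) ∨ (j = pa k ∧ i = pb k) := by
  decide +kernel

noncomputable def x (k : ℕ) : ⋀[ℤ]^2 V := exteriorPower.ιMulti ℤ 2 (fun i => e (![pa k, pb k] i))
noncomputable def ω : ⋀[ℤ]^4 V :=
  ∑ t ∈ range 19, tc t • exteriorPower.ιMulti ℤ 4 (fun i => e (tv t i))
noncomputable def b (p : I) : ⋀[ℤ]^2 V := ∑ k ∈ range 28, Vm (idx p) k • x k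

lemma x_mul (k l : ℕ) (hk : k < 28) (hl : l < 28) :
    (x k : ExteriorAlgebra ℤ V) * x l * ω = Bm k l • top := by
  rw [← hB k hk l hl, sum_smul, ω, x, x, AddSubmonoidClass.coe_finsetSum, mul_sum]
  refine sum_congr rfl fun t _ => ?_
  have h := ι_eq ![pa k, pb k, pa l, pb l, tv t 0, tv t 1, tv t 2, tv t 3]
  rw [sg, ← sgL_eq] at h
  simp only [List.ofFn_succ, List.ofFn_zero, Matrix.cons_val_zero, Matrix.cons_val_succ] at h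
  rw [SetLike.val_smul, mul_smul_comm, mul_smul, ← h]
  simp only [exteriorPower.ιMulti_apply_coe, ιMulti_mul_ιMulti]
  congr 2
  funext i
  fin_cases i <;> rfl

lemma x_mem (k : ℕ) (hk : k < 28) : x k ∈ Submodule.span ℤ (Set.range b) := by
  have : x k = ∑ p : I, Wm k (idx p) • b p := by
    simp only [b, smul_sum, smul_smul]
    rw [sum_comm]
    simp only [← sum_smul]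
    rw [sum_congr rfl fun l hl => by rw [hW k hk l (mem_range.1 hl)]]
    simp [hk]
  rw [this]
  exact Submodule.sum_mem _ fun p _ => Submodule.smul_mem _ _ (Submodule.subset_span ⟨p, rfl⟩)

noncomputable def bV : Module.Basis (Fin 8) ℤ V := Pi.basisFun ℤ (Fin 8)

lemma span_b : ⊤ ≤ Submodule.span ℤ (Set.range b) := by
  have hs : Submodule.span ℤ (Set.range e) = ⊤ := by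
    have h : e = bV := by funext i; exact (Pi.basisFun_apply ℤ (Fin 8) i).symm
    rw [h]; exact bV.span_eq
  rw [← exteriorPower.ιMulti_span_of_span ℤ 2 V hs, Submodule.span_le]
  rintro _ ⟨a, ha, rfl⟩
  obtain ⟨i, hi⟩ := ha ⟨0, rfl⟩
  obtain ⟨j, hj⟩ := ha ⟨1, rfl⟩
  rcases hP i j with rfl | ⟨k, hk, ⟨rfl, rfl⟩ | ⟨rfl, rfl⟩⟩
  · rw [AlternatingMap.map_eq_zero_of_eq _ a (i := 0) (j := 1) (hi.symm.trans hj) (by decide)]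
    exact Submodule.zero_mem _
  · have : a = fun i => e (![pa k, pb k] i) := by
      funext i; fin_cases i
      · exact hi.symm
      · exact hj.symm
    rw [this]; exact x_mem k hk
  · have : a = (fun i => e (![pa k, pb k] i)) ∘ Equiv.swap 0 1 := by
      funext i; fin_cases i
      · exact hi.symm
      · exact hj.symm
    rw [this, AlternatingMap.map_swap _ _ (by decide)]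
    exact Submodule.neg_mem _ (x_mem k hk)

/-- the degree `n` cohomology `H^n(Z^8)`: the `n`-th exterior power -/
def H (n : ℕ) : Type := ⋀[ℤ]^n V

noncomputable instance (n : ℕ) : AddCommGroup (H n) := Submodule.addCommGroup (⋀[ℤ]^n V)

/-- a class of degree `n` as an element of the exterior algebra -/
def val {n : ℕ} (x : H n) : ExteriorAlgebra ℤ V := Subtype.val x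

/-- `x ∧ y ∧ w = c * top` -/
def Pairs (x y : H 2) (w : H 4) (c : ℤ) : Prop := val x * val y * val w = c • top

theorem aux : ∃ (ω : ⋀[ℤ]^4 V) (b : Module.Basis (Fin 8 ⊕ (Fin 10 × Fin 2)) ℤ (⋀[ℤ]^2 V)),
    ∀ p q, (b p : ExteriorAlgebra ℤ V) * b q * ω = G p q • top := by
  have := Module.Free.of_basis bV
  have := Module.Finite.of_basis bV
  refine ⟨ω, basisOfTopLeSpanOfCardEqFinrank b span_b (by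
    rw [exteriorPower.finrank_eq, Module.finrank_eq_card_basis bV]; simp; decide), fun p q => ?_⟩
  rw [coe_basisOfTopLeSpanOfCardEqFinrank, ← hG, b, b, AddSubmonoidClass.coe_finsetSum,
    AddSubmonoidClass.coe_finsetSum, sum_mul_sum, sum_mul, sum_smul]
  refine sum_congr rfl fun k hk => ?_
  rw [sum_mul, sum_smul]
  refine sum_congr rfl fun l hl => ?_
  rw [SetLike.val_smul, SetLike.val_smul, smul_mul_smul_comm, smul_mul_assoc,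
    x_mul k l (mem_range.1 hk) (mem_range.1 hl), smul_smul]

theorem result : ∃ (w : H 4) (b : Module.Basis (Fin 8 ⊕ (Fin 10 × Fin 2)) ℤ (H 2)),
    ∀ p q, Pairs (b p) (b q) w (G p q) := aux

end Pool.Agent.Results.MP_58c1a9_gt.E8Form
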